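import Pool.Agent.helper95.T6.SpecE
import Pool.Agent.helper18.T5.TA1

set_option autoImplicit false

/-!
# Row t6l:EBX
-/

namespace Pool.Agent.T6

open Finset Pool.Agent.helper3.FT Pool.Agent.T5

/-- the numerical part -/
lemma EBX_num (a b c d z l w : ℝ) (a1 : 49 / 100 < a) (a2 : a ≤ 1 / 2) (b1 : 16 / 100 < b) (b2 : b ≤ 17 / 100)
    (c1 : |c| ≤ 1 / 1000) (d1 : |d| ≤ 1 / 1000) (z1 : 74 / 100 < z) (z2 : z ≤ 76 / 100)
    (h1 : l * a ^ 2 = c * d + z * b ^ 2)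
    (h2 : w * (a * b) ^ 2 = 4 * z ^ 2 * l * b ^ 2 - (z * d - l * c) ^ 2) :
    3 / 40 ≤ l ∧ l ≤ 92 / 1000 ∧ 65 / 100 ≤ w ∧ w ≤ 9 / 10 := by
  have hcd : |c * d| ≤ 1 / 1000000 := by
    rw [abs_mul]
    calc |c| * |d| ≤ 1 / 1000 * (1 / 1000) := mul_le_mul c1 d1 (abs_nonneg _) (by norm_num)
      _ = _ := by norm_num
  obtain ⟨hcd1, hcd2⟩ := abs_le.1 hcd
  have ha1 : 2401 / 10000 ≤ a ^ 2 := by nlinarith
  have ha2 : a ^ 2 ≤ 1 / 4 := by nlinarith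
  have hb1 : 256 / 10000 ≤ b ^ 2 := by nlinarith
  have hb2 : b ^ 2 ≤ 289 / 10000 := by nlinarith
  have hzb1 : 74 / 100 * (256 / 10000) ≤ z * b ^ 2 :=
    mul_le_mul z1.le hb1 (by norm_num) (by linarith)
  have hzb2 : z * b ^ 2 ≤ 76 / 100 * (289 / 10000) :=
    mul_le_mul z2 hb2 (by positivity) (by norm_num)
  have hl1 : 3 / 40 ≤ l := by
    by_contra hcon
    rw [not_le] at hcon
    have h3 : l * a ^ 2 ≤ 3 / 40 * a ^ 2 := mul_le_mul_of_nonneg_right hcon.le (by positivity)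
    linarith
  have hl2 : l ≤ 92 / 1000 := by
    by_contra hcon
    rw [not_le] at hcon
    have h3 : 92 / 1000 * a ^ 2 ≤ l * a ^ 2 := mul_le_mul_of_nonneg_right hcon.le (by positivity)
    linarith
  have hz1 : 5476 / 10000 ≤ z ^ 2 := by nlinarith
  have hz2 : z ^ 2 ≤ 5776 / 10000 := by nlinarith
  have he : |z * d - l * c| ≤ 1 / 1000 := by
    have e1 : |z * d| ≤ 76 / 100 * (1 / 1000) := by
      rw [abs_mul, abs_of_nonneg (by linarith)]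
      exact mul_le_mul z2 d1 (abs_nonneg _) (by norm_num)
    have e2 : |l * c| ≤ 92 / 1000 * (1 / 1000) := by
      rw [abs_mul, abs_of_nonneg (by linarith)]
      exact mul_le_mul hl2 c1 (abs_nonneg _) (by norm_num)
    calc |z * d - l * c| ≤ |z * d| + |l * c| := abs_sub _ _
      _ ≤ _ := by linarith
  have he2 : (z * d - l * c) ^ 2 ≤ 1 / 1000000 := by
    rw [← sq_abs]
    calc |z * d - l * c| ^ 2 ≤ (1 / 1000) ^ 2 := pow_le_pow_left₀ (abs_nonneg _) he 2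
      _ = _ := by norm_num
  have he0 : 0 ≤ (z * d - l * c) ^ 2 := sq_nonneg _
  have hb0 : 0 < b ^ 2 := by linarith
  -- `z² l`
  have hzl1 : 5476 / 10000 * (3 / 40) ≤ z ^ 2 * l := mul_le_mul hz1 hl1 (by norm_num) (by positivity)
  have hzl2 : z ^ 2 * l ≤ 5776 / 10000 * (92 / 1000) := mul_le_mul hz2 hl2 (by linarith) (by norm_num)
  have h2' : w * a ^ 2 * b ^ 2 = 4 * (z ^ 2 * l) * b ^ 2 - (z * d - l * c) ^ 2 := by
    linear_combination h2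
  have hw1 : 4 * (5476 / 10000 * (3 / 40)) - 1 / 25600 * (1 : ℝ) ≤ w * a ^ 2 := by
    by_contra hcon
    rw [not_le] at hcon
    have h3 : w * a ^ 2 * b ^ 2 < (4 * (5476 / 10000 * (3 / 40)) - 1 / 25600 * (1 : ℝ)) * b ^ 2 :=
      mul_lt_mul_of_pos_right hcon hb0
    have h4 : (5476 / 10000 * (3 / 40)) * b ^ 2 ≤ z ^ 2 * l * b ^ 2 := mul_le_mul_of_nonneg_right hzl1 hb0.le
    nlinarith
  have hw2 : w * a ^ 2 ≤ 4 * (5776 / 10000 * (92 / 1000)) := by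
    by_contra hcon
    rw [not_le] at hcon
    have h3 : 4 * (5776 / 10000 * (92 / 1000)) * b ^ 2 < w * a ^ 2 * b ^ 2 := mul_lt_mul_of_pos_right hcon hb0
    have h4 : z ^ 2 * l * b ^ 2 ≤ 5776 / 10000 * (92 / 1000) * b ^ 2 := mul_le_mul_of_nonneg_right hzl2 hb0.le
    nlinarith
  have ha0 : 0 < a ^ 2 := by linarith
  refine ⟨hl1, hl2, ?_, ?_⟩
  · by_contra hcon
    rw [not_le] at hcon
    have h3 : w * a ^ 2 < 65 / 100 * a ^ 2 := mul_lt_mul_of_pos_right hcon ha0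
    linarith
  · by_contra hcon
    rw [not_le] at hcon
    have h3 : 9 / 10 * a ^ 2 < w * a ^ 2 := mul_lt_mul_of_pos_right hcon ha0
    linarith

theorem EBX : EBX_stmt := by
  intro N Y Y₂ t hN1 hY1 hY₂1 hB
  have hN : 0 < N := by linarith
  have hY : 0 < Y := by linarith
  have hY₂ : 0 < Y₂ := by linarith
  have hT := hB.tt
  obtain ⟨a1, -, -, a4, -⟩ := T5T.TA1 t hT
  have hn1 := hT.n1
  have hk1 := hT.k1
  have hnR : (0 : ℝ) < (t.1.1 : ℝ) := by exact_mod_cast hn1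
  have hkR : (0 : ℝ) < (t.1.2 : ℝ) := by exact_mod_cast hk1
  have b1 : (lam t : ℝ) * (t.1.1 : ℝ) ^ 2 = (t.2.1 : ℝ) * t.2.2.1 + t.2.2.2 * (t.1.2 : ℝ) ^ 2 := by
    exact_mod_cast a1
  have b4 : (dis t : ℝ) * ((t.1.1 : ℝ) * t.1.2) ^ 2 =
      ((t.2.2.2 : ℝ) * t.2.2.1 - lam t * t.2.1) ^ 2 - 4 * (t.2.2.2 : ℝ) ^ 2 * lam t * (t.1.2 : ℝ) ^ 2 := by
    exact_mod_cast a4
  set y : ℝ := √Y with hy
  set v : ℝ := √Y₂ with hv
  set s : ℝ := √N with hs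
  have hy0 : 0 < y := Real.sqrt_pos.2 hY
  have hv0 : 0 < v := Real.sqrt_pos.2 hY₂
  have hs0 : 0 < s := Real.sqrt_pos.2 hN
  have hY2 : Y = y ^ 2 := (Real.sq_sqrt hY.le).symm
  have hV2 : Y₂ = v ^ 2 := (Real.sq_sqrt hY₂.le).symm
  have hN2 : N = s ^ 2 := (Real.sq_sqrt hN.le).symm
  have eN : sN N Y Y₂ = y ^ 2 * v / s := by
    rw [sN, ← hv, ← hs, ← hY2]
  have eK : sK N Y Y₂ = y * v ^ 2 / s := by
    rw [sK, ← hy, ← hs, ← hV2]
  have eM : sM N Y Y₂ = y ^ 3 * v / s := by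
    rw [sM, ← hy, ← hv, ← hs]
    have : Y * y = y ^ 3 := by rw [hY2]; ring
    rw [this]
  have eG : sG N Y Y₂ = y * v ^ 3 / s := by
    rw [sG, ← hy, ← hv, ← hs]
    have : y * Y₂ * v = y * v ^ 3 := by rw [hV2]; ring
    rw [this]
  have q1 := hB.n1
  have q2 := hB.n2
  have q3 := hB.k1
  have q4 := hB.k2
  have q5 := hB.m1
  have q6 := hB.g1
  have q7 := hB.z1
  have q8 := hB.z2
  rw [eN] at q1 q2
  rw [eK] at q3 q4
  rw [eM] at q5
  rw [eG] at q6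
  set n : ℝ := (t.1.1 : ℝ) with hn
  set k : ℝ := (t.1.2 : ℝ) with hk
  set m : ℝ := (t.2.1 : ℝ) with hm
  set g : ℝ := (t.2.2.1 : ℝ) with hg
  set Z : ℝ := (t.2.2.2 : ℝ) with hZ
  set L : ℝ := (lam t : ℝ) with hL
  set W : ℝ := -(dis t : ℝ) with hW
  have b4' : W * (n * k) ^ 2 = 4 * Z ^ 2 * L * k ^ 2 - (Z * g - L * m) ^ 2 := by
    rw [hW]
    linear_combination -b4
  have pN : 0 < y ^ 2 * v / s := by positivity
  have pK : 0 < y * v ^ 2 / s := by positivity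
  have pM : 0 < y ^ 3 * v / s := by positivity
  have pG : 0 < y * v ^ 3 / s := by positivity
  have h1 : L / v ^ 2 * (n / (y ^ 2 * v / s)) ^ 2 =
      m / (y ^ 3 * v / s) * (g / (y * v ^ 3 / s)) + Z / y ^ 2 * (k / (y * v ^ 2 / s)) ^ 2 := by
    have hL' : L = (m * g + Z * k ^ 2) / n ^ 2 := by
      rw [← b1]
      field_simp
    rw [hL']
    field_simp
  have h2 : W / s ^ 2 * (n / (y ^ 2 * v / s) * (k / (y * v ^ 2 / s))) ^ 2 =
      4 * (Z / y ^ 2) ^ 2 * (L / v ^ 2) * (k / (y * v ^ 2 / s)) ^ 2 -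
        (Z / y ^ 2 * (g / (y * v ^ 3 / s)) - L / v ^ 2 * (m / (y ^ 3 * v / s))) ^ 2 := by
    have hW' : W = (4 * Z ^ 2 * L * k ^ 2 - (Z * g - L * m) ^ 2) / (n * k) ^ 2 := by
      rw [← b4']
      field_simp
    rw [hW']
    field_simp
  have hm' : |m / (y ^ 3 * v / s)| ≤ 1 / 1000 := by
    rw [abs_div, abs_of_pos pM, div_le_iff₀ pM]
    exact q5
  have hg' : |g / (y * v ^ 3 / s)| ≤ 1 / 1000 := by
    rw [abs_div, abs_of_pos pG, div_le_iff₀ pG]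
    exact q6
  rw [hY2] at q7 q8
  obtain ⟨l1, l2, w1, w2⟩ := EBX_num (n / (y ^ 2 * v / s)) (k / (y * v ^ 2 / s)) (m / (y ^ 3 * v / s))
    (g / (y * v ^ 3 / s)) (Z / y ^ 2) (L / v ^ 2) (W / s ^ 2)
    (by rw [lt_div_iff₀ pN]; exact q1) (by rw [div_le_iff₀ pN]; exact q2)
    (by rw [lt_div_iff₀ pK]; exact q3) (by rw [div_le_iff₀ pK]; exact q4) hm' hg'
    (by rw [lt_div_iff₀ (by positivity)]; exact q7) (by rw [div_le_iff₀ (by positivity)]; exact q8) h1 h2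
  rw [le_div_iff₀ (by positivity)] at l1 w1
  rw [div_le_iff₀ (by positivity)] at l2 w2
  have hZ0 : 0 < Z := lt_trans (by positivity) q7
  have hL0 : 0 < L := lt_of_lt_of_le (by positivity) l1
  have hW0 : 0 < W := lt_of_lt_of_le (by positivity) w1
  -- square roots
  have sW1 : 8 / 10 * s ≤ √W := by
    refine Real.le_sqrt_of_sq_le ?_
    nlinarith [sq_nonneg s]
  have sL : √L ≤ 4 / 10 * v := by
    rw [Real.sqrt_le_left (by positivity)]
    nlinarith [sq_nonneg v]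
  have sZ : √Z ≤ y := by
    rw [Real.sqrt_le_left (by positivity)]
    nlinarith [sq_nonneg y]
  have nW : 49 / 100 * (y ^ 2 * v) * (8 / 10) ≤ n * √W := by
    have e1 : 49 / 100 * (y ^ 2 * v / s) * (8 / 10 * s) ≤ n * √W :=
      mul_le_mul q1.le sW1 (by positivity) hnR.le
    have e2 : 49 / 100 * (y ^ 2 * v / s) * (8 / 10 * s) = 49 / 100 * (y ^ 2 * v) * (8 / 10) := by
      field_simp
    linarith
  have kW : 16 / 100 * (y * v ^ 2) * (8 / 10) ≤ k * √W := by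
    have e1 : 16 / 100 * (y * v ^ 2 / s) * (8 / 10 * s) ≤ k * √W :=
      mul_le_mul q3.le sW1 (by positivity) hkR.le
    have e2 : 16 / 100 * (y * v ^ 2 / s) * (8 / 10 * s) = 16 / 100 * (y * v ^ 2) * (8 / 10) := by
      field_simp
    linarith
  have hyv : 0 < y ^ 2 * v := by positivity
  have hyv2 : 0 < y * v ^ 2 := by positivity
  refine ⟨⟨hT, ?_, ?_, ?_, ?_, ?_, ?_, ?_, ?_⟩, ?_⟩
  · show Y / 2 < Z
    rw [hY2]
    nlinarith [sq_nonneg y]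
  · show Z ≤ Y
    rw [hY2]
    nlinarith [sq_nonneg y]
  · show N / 2 < W
    rw [hN2]
    nlinarith [pow_pos hs0 2]
  · show W ≤ N
    rw [hN2]
    nlinarith [sq_nonneg s]
  · show 1 / 100 * Y₂ ≤ L
    rw [hV2]
    nlinarith [sq_nonneg v]
  · show L * s ≤ Y₂ * √W
    have e1 : L * s ≤ 92 / 1000 * v ^ 2 * s := mul_le_mul_of_nonneg_right l2 hs0.le
    have e2 : v ^ 2 * (8 / 10 * s) ≤ Y₂ * √W := by
      rw [hV2]
      exact mul_le_mul_of_nonneg_left sW1 (by positivity)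
    have e3 : 0 < v ^ 2 * s := by positivity
    linarith
  · show 2 * (1 / 100) * Z * √L ≤ n * √W
    have e1 : Z * √L ≤ 76 / 100 * y ^ 2 * (4 / 10 * v) :=
      mul_le_mul q8 sL (Real.sqrt_nonneg _) (by positivity)
    linarith
  · show 2 * (1 / 100) * √Z * L ≤ k * √W
    have e1 : √Z * L ≤ y * (92 / 1000 * v ^ 2) :=
      mul_le_mul sZ l2 hL0.le hy0.le
    linarith
  · show L ≤ Y₂ / 10
    rw [hV2]
    nlinarith [sq_nonneg v]

end Pool.Agent.T6
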