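import Pool.Agent.helper8.T6.SpecC2

set_option autoImplicit false

namespace Pool.Agent.T6

open Finset Pool.Agent.T5

theorem TNA_sq (S : Finset ℕ) (hS : ∀ p ∈ S, p.Prime) : Squarefree (∏ p ∈ S, p) := by
  classical
  induction S using Finset.induction_on with
  | empty => simp
  | insert q S hq ih =>
    rw [prod_insert hq]
    have h1 : Nat.Coprime q (∏ p ∈ S, p) := by
      refine Nat.Coprime.prod_right ?_
      intro p hp
      refine (Nat.coprime_primes (hS q (mem_insert_self _ _)) (hS p (mem_insert_of_mem hp))).mpr ?_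
      intro h
      rw [h] at hq
      exact hq hp
    rw [Nat.squarefree_mul h1]
    exact ⟨(hS q (mem_insert_self _ _)).squarefree, ih fun p hp => hS p (mem_insert_of_mem hp)⟩

theorem TNA : TNA_stmt := by
  classical
  intro d Sr Sy hd hSr hSy hdis
  have hpr : ∀ p ∈ d.primeFactors, p.Prime := fun p hp => Nat.prime_of_mem_primeFactors hp
  have ha : ∀ p ∈ d.primeFactors, 1 ≤ d.factorization p := by
    intro p hp
    exact (Nat.Prime.dvd_iff_one_le_factorization (hpr p hp) (by omega)).mp
      (Nat.dvd_of_mem_primeFactors hp)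
  have hprod : ∏ p ∈ d.primeFactors, p ^ d.factorization p = d := by
    have h1 := Nat.prod_factorization_pow_eq_self (n := d) (by omega)
    rw [Nat.prod_factorization_eq_prod_primeFactors] at h1
    exact h1
  have hy : ∏ p ∈ Sy, p = ∏ p ∈ d.primeFactors, if p ∈ Sy then p else 1 := by
    rw [prod_ite_mem, inter_eq_right.mpr hSy]
  have hr : ∏ p ∈ d.primeFactors, mr Sr p = ∏ p ∈ Sr, p := by
    unfold mr
    rw [prod_ite_mem, inter_eq_right.mpr hSr]
  have hnot : ∀ p, p ∈ Sr → p ∉ Sy := fun p h1 h2 => (Finset.disjoint_left.mp hdis) h1 h2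
  have hmr : ∀ p ∈ d.primeFactors, 1 ≤ mr Sr p := by
    intro p hp
    unfold mr
    split_ifs
    · exact (hpr p hp).one_le
    · exact le_refl _
  have hms : ∀ p ∈ d.primeFactors, 1 ≤ ms d Sr Sy p := by
    intro p hp
    unfold ms
    split_ifs
    · exact le_refl _
    · exact Nat.one_le_pow _ _ (hpr p hp).pos
    · exact (hpr p hp).one_le
  have hself : ∀ p ∈ d.primeFactors, p ∣ p ^ d.factorization p := fun p hp =>
    dvd_pow_self p (by have := ha p hp; omega)
  have hdv : ∀ p ∈ d.primeFactors, mr Sr p * ms d Sr Sy p ∣ p ^ d.factorization p := by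
    intro p hp
    unfold mr ms
    split_ifs
    · rw [mul_one]
      exact hself p hp
    · rw [one_mul]
    · rw [one_mul]
      exact hself p hp
  refine ⟨?_, ?_, ?_, ?_, ?_, hr, ?_, ?_, ?_⟩
  · exact Nat.one_le_iff_ne_zero.mpr (prod_ne_zero_iff.mpr fun p hp => by have := hmr p hp; omega)
  · exact Nat.one_le_iff_ne_zero.mpr (prod_ne_zero_iff.mpr fun p hp => by have := hms p hp; omega)
  · refine Nat.Coprime.prod_left ?_
    intro p hp
    refine Nat.Coprime.prod_right ?_
    intro q hq
    by_cases hpq : p = q
    · subst hpq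
      unfold mr ms
      by_cases h1 : p ∈ Sr
      · rw [if_pos h1, if_pos h1]
        exact Nat.coprime_one_right p
      · rw [if_neg h1]
        exact Nat.coprime_one_left _
    · have hc : Nat.Coprime p q := (Nat.coprime_primes (hpr p hp) (hpr q hq)).mpr hpq
      have h1 : Nat.Coprime p (ms d Sr Sy q) := by
        unfold ms
        split_ifs
        · exact Nat.coprime_one_right p
        · exact Nat.Coprime.pow_right _ hc
        · exact hc
      unfold mr
      split_ifs
      · exact h1
      · exact Nat.coprime_one_left _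
  · calc (∏ p ∈ d.primeFactors, mr Sr p) ^ 2 * (∏ p ∈ d.primeFactors, ms d Sr Sy p) * (∏ p ∈ Sy, p)
        = ∏ p ∈ d.primeFactors, (mr Sr p ^ 2 * ms d Sr Sy p * (if p ∈ Sy then p else 1)) := by
          rw [hy, prod_mul_distrib, prod_mul_distrib, prod_pow]
      _ ≤ ∏ p ∈ d.primeFactors, (p ^ d.factorization p) ^ 2 := by
          refine prod_le_prod (fun p _ => Nat.zero_le _) ?_
          intro p hp
          have h1 : p ≤ p ^ d.factorization p :=
            Nat.le_of_dvd (Nat.pow_pos (hpr p hp).pos) (hself p hp)
          have h2 : 1 ≤ p := (hpr p hp).one_le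
          have h3 : 1 ≤ p ^ d.factorization p := le_trans h2 h1
          unfold mr ms
          by_cases hr1 : p ∈ Sr
          · rw [if_pos hr1, if_pos hr1, if_neg (hnot p hr1), mul_one, mul_one]
            exact Nat.pow_le_pow_left h1 2
          · rw [if_neg hr1, if_neg hr1, one_pow, one_mul]
            by_cases hs1 : p ∈ Sy
            · rw [if_pos hs1, if_pos (Or.inl hs1), sq]
              exact Nat.mul_le_mul_left _ h1
            · rw [if_neg hs1, mul_one]
              split_ifs
              · rw [sq]
                exact Nat.le_mul_of_pos_left _ h3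
              · calc p ≤ p ^ d.factorization p := h1
                  _ ≤ (p ^ d.factorization p) ^ 2 := by
                    rw [sq]
                    exact Nat.le_mul_of_pos_left _ h3
      _ = d ^ 2 := by rw [prod_pow, hprod]
  · calc (∏ p ∈ d.primeFactors, mr Sr p) * (∏ p ∈ d.primeFactors, ms d Sr Sy p)
        = ∏ p ∈ d.primeFactors, (mr Sr p * ms d Sr Sy p) := by rw [prod_mul_distrib]
      _ ∣ ∏ p ∈ d.primeFactors, p ^ d.factorization p := prod_dvd_prod_of_dvd _ _ hdv
      _ = d := hprod
  · exact TNA_sq Sy fun p hp => hpr p (hSy hp)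
  · rw [hy]
    refine prod_dvd_prod_of_dvd _ _ ?_
    intro p hp
    unfold ms
    by_cases hs1 : p ∈ Sy
    · have hr1 : p ∉ Sr := fun h => hnot p h hs1
      rw [if_pos hs1, if_neg hr1, if_pos (Or.inl hs1)]
      exact hself p hp
    · rw [if_neg hs1]
      exact one_dvd _
  · exact Nat.primeFactors_prod fun p hp => hpr p (hSy hp)

end Pool.Agent.T6
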